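import Mathlib

/-!
# Non-amenable groups split into two sets of Solecki density zero: the core

For a non-amenable group `G` we take a minimal nonempty closed convex `G`-invariant set `K` of
finitely additive probability measures on `G`, a set `D` on which the members of `K` do not agree,
and a point `κ` of `K`; the level sets of `g ↦ (g • κ) D` have density zero.
-/

namespace Pool.Agent.Y945.Sol

set_option linter.unusedSectionVars false

universe u

variable {G : Type u} [Group G]

/-- `G` is amenable: there is a left-invariant finitely additive probability measure on all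
subsets of `G`. -/
def IsAmenable (G : Type u) [Group G] : Prop :=
  ∃ m : Set G → ℝ, (∀ A, 0 ≤ m A) ∧ m Set.univ = 1 ∧
    (∀ A B, Disjoint A B → m (A ∪ B) = m A + m B) ∧
    ∀ (g : G) (A : Set G), m ((fun x => g * x) '' A) = m A

/-- finitely additive probability measures -/
def Mns (G : Type u) : Set (Set G → ℝ) :=
  {m | (∀ A, 0 ≤ m A) ∧ m Set.univ = 1 ∧ ∀ A B, Disjoint A B → m (A ∪ B) = m A + m B}

/-- translation of set functions -/
def act (g : G) (m : Set G → ℝ) : Set G → ℝ := fun A => m {x | g * x ∈ A}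

lemma act_act (g h : G) (m : Set G → ℝ) : act g (act h m) = act (g * h) m := by
  funext A
  simp only [act, Set.mem_ofPred_eq, mul_assoc]

lemma act_one (m : Set G → ℝ) : act (1 : G) m = m := by
  funext A
  simp [act]

lemma act_add (g : G) (m m' : Set G → ℝ) : act g (m + m') = act g m + act g m' := rfl

lemma act_smul (g : G) (c : ℝ) (m : Set G → ℝ) : act g (c • m) = c • act g m := rfl

lemma continuous_act (g : G) : Continuous (act g : (Set G → ℝ) → (Set G → ℝ)) := by
  refine continuous_pi fun A => continuous_apply _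

lemma act_mem_Mns {m : Set G → ℝ} (hm : m ∈ Mns G) (g : G) : act g m ∈ Mns G := by
  refine ⟨fun A => hm.1 _, ?_, fun A B hAB => ?_⟩
  · simpa [act] using hm.2.1
  · have : Disjoint {x | g * x ∈ A} {x | g * x ∈ B} := by
      rw [Set.disjoint_left] at hAB ⊢
      intro x hx hx'
      exact hAB hx hx'
    have h := hm.2.2 _ _ this
    simp only [act]
    rw [← h]
    rfl

lemma isClosed_Mns : IsClosed (Mns G) := by
  have h1 : IsClosed {m : Set G → ℝ | ∀ A, 0 ≤ m A} := by
    simp only [Set.ofPred_forall]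
    exact isClosed_iInter fun A => isClosed_le continuous_const (continuous_apply A)
  have h2 : IsClosed {m : Set G → ℝ | m Set.univ = 1} :=
    isClosed_eq (continuous_apply _) continuous_const
  have h3 : IsClosed {m : Set G → ℝ | ∀ A B, Disjoint A B → m (A ∪ B) = m A + m B} := by
    simp only [Set.ofPred_forall]
    exact isClosed_iInter fun A => isClosed_iInter fun B => isClosed_iInter fun _ =>
      isClosed_eq (continuous_apply _)
        ((continuous_apply (A := fun _ : Set G => ℝ) A).add (continuous_apply B))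
  have : Mns G = {m : Set G → ℝ | ∀ A, 0 ≤ m A} ∩ ({m : Set G → ℝ | m Set.univ = 1} ∩
      {m : Set G → ℝ | ∀ A B, Disjoint A B → m (A ∪ B) = m A + m B}) := by
    ext m; simp [Mns]
  rw [this]
  exact h1.inter (h2.inter h3)

lemma convex_Mns : Convex ℝ (Mns G) := by
  intro m hm m' hm' a b ha hb hab
  refine ⟨fun A => ?_, ?_, fun A B hAB => ?_⟩
  · have := hm.1 A
    have := hm'.1 A
    simp only [Pi.add_apply, Pi.smul_apply, smul_eq_mul]
    positivity
  · simp only [Pi.add_apply, Pi.smul_apply, smul_eq_mul, hm.2.1, hm'.2.1]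
    linarith
  · simp only [Pi.add_apply, Pi.smul_apply, smul_eq_mul, hm.2.2 A B hAB, hm'.2.2 A B hAB]
    ring

lemma Mns_le_one {m : Set G → ℝ} (hm : m ∈ Mns G) (A : Set G) : m A ≤ 1 := by
  have h := hm.2.2 A Aᶜ disjoint_compl_right
  rw [Set.union_compl_self, hm.2.1] at h
  have := hm.1 Aᶜ
  linarith

lemma isCompact_Mns : IsCompact (Mns G) := by
  have h : IsCompact (Set.pi Set.univ (fun _ : Set G => Set.Icc (0 : ℝ) 1)) :=
    isCompact_univ_pi fun _ => isCompact_Icc
  refine h.of_isClosed_subset isClosed_Mns ?_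
  intro m hm A _
  exact ⟨hm.1 A, Mns_le_one hm A⟩

lemma Mns_nonempty : (Mns G).Nonempty := by
  classical
  refine ⟨fun A => if (1 : G) ∈ A then 1 else 0, fun A => by positivity, by simp, ?_⟩
  intro A B hAB
  rw [Set.disjoint_left] at hAB
  by_cases h1 : (1 : G) ∈ A
  · simp [h1, hAB h1]
  · by_cases h2 : (1 : G) ∈ B <;> simp [h1, h2]

/-- nonempty closed convex invariant sets of means -/
structure Inv (K : Set (Set G → ℝ)) : Prop where
  ne : K.Nonempty
  sub : K ⊆ Mns G
  cl : IsClosed K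
  cv : Convex ℝ K
  inv : ∀ g : G, ∀ m ∈ K, act g m ∈ K

lemma inv_Mns : Inv (Mns G) :=
  ⟨Mns_nonempty, subset_rfl, isClosed_Mns, convex_Mns, fun g _ hm => act_mem_Mns hm g⟩

lemma exists_minimal : ∃ K : Set (Set G → ℝ), Inv (G := G) K ∧
    ∀ K' : Set (Set G → ℝ), Inv (G := G) K' → K' ⊆ K → K' = K := by
  obtain ⟨K, hK, hmin⟩ := zorn_superset_nonempty {K : Set (Set G → ℝ) | Inv (G := G) K}
    (fun c hc hchain hne => by
      refine ⟨⋂₀ c, ?_, fun s hs => Set.sInter_subset_of_mem hs⟩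
      have hcomp : ∀ s ∈ c, IsCompact s := fun s hs =>
        isCompact_Mns.of_isClosed_subset (hc hs).cl (hc hs).sub
      refine ⟨?_, ?_, ?_, ?_, ?_⟩
      · have : Nonempty c := hne.to_subtype
        refine IsCompact.nonempty_sInter_of_directed_nonempty_isCompact_isClosed ?_
          (fun s hs => (hc hs).ne) hcomp (fun s hs => (hc hs).cl)
        intro s hs t ht
        rcases hchain.total hs ht with h | h
        · exact ⟨s, hs, subset_rfl, h⟩
        · exact ⟨t, ht, h, subset_rfl⟩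
      · obtain ⟨s, hs⟩ := hne
        exact (Set.sInter_subset_of_mem hs).trans (hc hs).sub
      · exact isClosed_sInter fun s hs => (hc hs).cl
      · exact convex_sInter fun s hs => (hc hs).cv
      · intro g m hm s hs
        exact (hc hs).inv g m (hm s hs)) (Mns G) inv_Mns
  refine ⟨K, hmin.prop, fun K' hK' hsub => ?_⟩
  exact hmin.eq_of_subset hK' hsub |>.symm ▸ rfl

/-- the translation as a linear map -/
def actL (g : G) : (Set G → ℝ) →ₗ[ℝ] (Set G → ℝ) where
  toFun := act g
  map_add' := act_add g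
  map_smul' := act_smul g

lemma level {K : Set (Set G → ℝ)} (hK : Inv (G := G) K)
    (hmin : ∀ K' : Set (Set G → ℝ), Inv (G := G) K' → K' ⊆ K → K' = K)
    (ψ : (Set G → ℝ) →L[ℝ] ℝ) {κ₁ : Set G → ℝ} (hκ₁ : κ₁ ∈ K) {ε : ℝ} (hε : 0 < ε) :
    ∃ (S : Finset G) (w : S → ℝ), (∀ g, 0 ≤ w g) ∧ ∑ g, w g = 1 ∧
      ∀ κ ∈ K, ψ κ₁ - ε < ∑ g, w g * ψ (act (g : G) κ) := by
  classical
  have hcompK : IsCompact K := isCompact_Mns.of_isClosed_subset hK.cl hK.sub
  -- every orbit comes close to the value at `κ₁`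
  have hstep : ∀ κ ∈ K, ∃ g : G, ψ κ₁ - ε < ψ (act g κ) := by
    intro κ hκ
    by_contra hcon
    push Not at hcon
    let K' : Set (Set G → ℝ) := K ∩ ⋂ g : G, {m | ψ (act g m) ≤ ψ κ₁ - ε}
    have hK' : Inv (G := G) K' := by
      refine ⟨⟨κ, hκ, Set.mem_iInter.2 fun g => hcon g⟩, Set.inter_subset_left.trans hK.sub, ?_,
        ?_, ?_⟩
      · exact hK.cl.inter (isClosed_iInter fun g =>
          isClosed_le (ψ.continuous.comp (continuous_act g)) continuous_const)
      · refine hK.cv.inter (convex_iInter fun g => ?_)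
        exact convex_halfSpace_le ((ψ.toLinearMap.comp (actL g)).isLinear) _
      · rintro g m ⟨hm, hm'⟩
        refine ⟨hK.inv g m hm, Set.mem_iInter.2 fun h => ?_⟩
        have := Set.mem_iInter.1 hm' (h * g)
        simpa [act_act] using this
    have h1 : κ₁ ∈ K' := by rw [hmin K' hK' Set.inter_subset_left]; exact hκ₁
    have h2 := Set.mem_iInter.1 h1.2 1
    simp only [act_one, Set.mem_ofPred_eq] at h2
    linarith
  -- compactness
  obtain ⟨S, hS⟩ := hcompK.elim_finite_subcover (fun g : G => {m | ψ κ₁ - ε < ψ (act g m)})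
    (fun g => isOpen_lt continuous_const (ψ.continuous.comp (continuous_act g)))
    (fun κ hκ => Set.mem_iUnion.2 (hstep κ hκ))
  refine ⟨S, ?_⟩
  have hcont : ∀ g : G, Continuous fun m : Set G → ℝ => ψ (act g m) :=
    fun g => ψ.continuous.comp (continuous_act g)
  obtain ⟨w, hw, hw'⟩ := Sion.exists_lt_iInf_of_lt_iInf_of_finite (X := K)
    (Y := stdSimplex ℝ S) (f := fun (m : Set G → ℝ) (w : S → ℝ) => ∑ g, w g * ψ (act (g : G) m))
    hK.ne hcompK
    (fun w _ => (Continuous.lowerSemicontinuous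
      (continuous_finsetSum Finset.univ fun (g : S) _ => (hcont (g : G)).const_mul (w g))).lowerSemicontinuousOn _)
    (fun w _ => by
      refine ConvexOn.quasiconvexOn ?_
      refine ⟨hK.cv, fun x _ y _ a b _ _ _ => le_of_eq ?_⟩
      simp only [act_add, act_smul, map_add, map_smul, smul_eq_mul, Finset.mul_sum]
      rw [← Finset.sum_add_distrib]
      exact Finset.sum_congr rfl fun g _ => by ring)
    (convex_stdSimplex ℝ S)
    (fun m _ => (Continuous.upperSemicontinuous (by fun_prop)).upperSemicontinuousOn _)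
    (fun m _ => by
      refine ConcaveOn.quasiconcaveOn ?_
      refine ⟨convex_stdSimplex ℝ S, fun x _ y _ a b _ _ _ => le_of_eq ?_⟩
      simp only [Pi.add_apply, Pi.smul_apply, smul_eq_mul, Finset.mul_sum]
      rw [← Finset.sum_add_distrib]
      exact Finset.sum_congr rfl fun g _ => by ring)
    hK.cv (Set.finite_range fun g : S => (Pi.single g 1 : S → ℝ))
    (by rintro _ ⟨g, rfl⟩; exact single_mem_stdSimplex ℝ g)
    (t := ψ κ₁ - ε)
    (by
      intro m hm
      obtain ⟨g, hg, hm'⟩ := Set.mem_iUnion₂.1 (hS hm)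
      refine ⟨_, ⟨⟨g, hg⟩, rfl⟩, ?_⟩
      simpa [Pi.single_apply] using hm')
  exact ⟨w, hw.1, hw.2, hw'⟩

open Classical in
/-- The main lemma: a non-amenable group has a subset `A` such that for every `ε > 0` there are
finitely supported probability measures `w`, `w'` with `w (A y) ≤ ε` and `w' (Aᶜ y) ≤ ε` for all
`y`. -/
theorem exists_null (hG : ¬ IsAmenable G) : ∃ A : Set G, ∀ ε : ℝ, 0 < ε →
    (∃ (S : Finset G) (w : S → ℝ), (∀ g, 0 ≤ w g) ∧ ∑ g, w g = 1 ∧
      ∀ y : G, ∑ g : S, (if (g : G) * y⁻¹ ∈ A then w g else 0) ≤ ε) ∧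
    (∃ (S : Finset G) (w : S → ℝ), (∀ g, 0 ≤ w g) ∧ ∑ g, w g = 1 ∧
      ∀ y : G, ∑ g : S, (if (g : G) * y⁻¹ ∉ A then w g else 0) ≤ ε) := by
  classical
  obtain ⟨K, hK, hmin⟩ := exists_minimal (G := G)
  have hcompK : IsCompact K := isCompact_Mns.of_isClosed_subset hK.cl hK.sub
  obtain ⟨κ, hκ⟩ := hK.ne
  -- the members of `K` are not constant
  obtain ⟨g₀, hg₀⟩ : ∃ g : G, act g κ ≠ κ := by
    by_contra hcon
    push Not at hcon
    have hm := hK.sub hκ
    refine hG ⟨κ, hm.1, hm.2.1, hm.2.2, fun g A => ?_⟩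
    have h1 := congrFun (hcon g⁻¹) A
    rw [← h1]
    simp only [act]
    congr 1
    ext y
    simp only [Set.mem_image, Set.mem_ofPred_eq]
    constructor
    · rintro ⟨x, hx, rfl⟩
      simpa using hx
    · intro hy
      exact ⟨g⁻¹ * y, hy, by simp⟩
  obtain ⟨D, hD⟩ : ∃ D, act g₀ κ D ≠ κ D := by
    by_contra hcon
    push Not at hcon
    exact hg₀ (funext hcon)
  let φ : (Set G → ℝ) →L[ℝ] ℝ := ContinuousLinearMap.proj D
  have hφ : ∀ m, φ m = m D := fun m => rfl
  obtain ⟨κ₁, hκ₁, hmax⟩ := hcompK.exists_isMaxOn hK.ne φ.continuous.continuousOn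
  obtain ⟨κ₀, hκ₀, hmn⟩ := hcompK.exists_isMinOn hK.ne φ.continuous.continuousOn
  have hmax' : ∀ m ∈ K, φ m ≤ φ κ₁ := fun m hm => hmax hm
  have hmin' : ∀ m ∈ K, φ κ₀ ≤ φ m := fun m hm => hmn hm
  have hlt : φ κ₀ < φ κ₁ := by
    by_contra hcon
    push Not at hcon
    have h1 := hmax' _ hκ
    have h2 := hmin' _ hκ
    have h3 := hmax' _ (hK.inv g₀ _ hκ)
    have h4 := hmin' _ (hK.inv g₀ _ hκ)
    apply hD
    have h5 : φ (act g₀ κ) = φ κ := by linarith
    exact h5
  set α := φ κ₀
  set β := φ κ₁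
  let γ := (α + β) / 2
  have hγβ : 0 < β - γ := by show 0 < β - (α + β) / 2; linarith
  have hγα : 0 < γ - α := by show 0 < (α + β) / 2 - α; linarith
  refine ⟨{g | φ (act g κ) ≤ γ}, fun ε hε => ⟨?_, ?_⟩⟩
  · obtain ⟨S, w, hw0, hw1, hw⟩ := level hK hmin φ hκ₁ (mul_pos hε hγβ)
    refine ⟨S, w, hw0, hw1, fun y => ?_⟩
    have h1 := hw (act y⁻¹ κ) (hK.inv _ _ hκ)
    have h2 : ∑ g : S, (if (g : G) * y⁻¹ ∈ {g | φ (act g κ) ≤ γ} then w g else 0) * (β - γ)
        ≤ ∑ g : S, w g * (β - φ (act (g : G) (act y⁻¹ κ))) := by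
      refine Finset.sum_le_sum fun g _ => ?_
      have h3 := hmax' _ (hK.inv (g : G) _ (hK.inv y⁻¹ _ hκ))
      split_ifs with h
      · refine mul_le_mul_of_nonneg_left ?_ (hw0 g)
        rw [Set.mem_ofPred_eq, ← act_act] at h
        linarith
      · rw [zero_mul]
        exact mul_nonneg (hw0 g) (by linarith)
    have h4 : ∑ g : S, w g * (β - φ (act (g : G) (act y⁻¹ κ)))
        = β - ∑ g : S, w g * φ (act (g : G) (act y⁻¹ κ)) := by
      simp only [mul_sub, Finset.sum_sub_distrib, ← Finset.sum_mul, hw1, one_mul]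
    rw [← Finset.sum_mul, h4] at h2
    have h5 : (∑ g : S, (if (g : G) * y⁻¹ ∈ {g | φ (act g κ) ≤ γ} then w g else 0)) * (β - γ)
        ≤ ε * (β - γ) := by linarith
    exact le_of_mul_le_mul_right h5 hγβ
  · obtain ⟨S, w, hw0, hw1, hw⟩ := level hK hmin (-φ) hκ₀ (mul_pos hε hγα)
    refine ⟨S, w, hw0, hw1, fun y => ?_⟩
    have h1 := hw (act y⁻¹ κ) (hK.inv _ _ hκ)
    simp only [neg_apply, mul_neg, Finset.sum_neg_distrib] at h1
    have h2 : ∑ g : S, (if (g : G) * y⁻¹ ∉ {g | φ (act g κ) ≤ γ} then w g else 0) * (γ - α)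
        ≤ ∑ g : S, w g * (φ (act (g : G) (act y⁻¹ κ)) - α) := by
      refine Finset.sum_le_sum fun g _ => ?_
      have h3 := hmin' _ (hK.inv (g : G) _ (hK.inv y⁻¹ _ hκ))
      by_cases h : (g : G) * y⁻¹ ∉ {g | φ (act g κ) ≤ γ}
      · rw [if_pos h]
        refine mul_le_mul_of_nonneg_left ?_ (hw0 g)
        rw [Set.mem_ofPred_eq, ← act_act, not_le] at h
        linarith
      · rw [if_neg h, zero_mul]
        exact mul_nonneg (hw0 g) (by linarith)
    have h4 : ∑ g : S, w g * (φ (act (g : G) (act y⁻¹ κ)) - α)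
        = (∑ g : S, w g * φ (act (g : G) (act y⁻¹ κ))) - α := by
      simp only [mul_sub, Finset.sum_sub_distrib, ← Finset.sum_mul, hw1, one_mul]
    rw [← Finset.sum_mul, h4] at h2
    have h5 : (∑ g : S, (if (g : G) * y⁻¹ ∉ {g | φ (act g κ) ≤ γ} then w g else 0)) * (γ - α)
        ≤ ε * (γ - α) := by linarith
    exact le_of_mul_le_mul_right h5 hγα

end Pool.Agent.Y945.Sol
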